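import Mathlib
import Pool.Agent.Q124.TB.Lin

/-!
# Orders of products of characteristic polynomials
-/

set_option autoImplicit false

namespace Pool.Agent.Q124.ZO

open Module Polynomial

/-- The characteristic polynomial of the inverse. -/
theorem det_eq {E : Type} [AddCommGroup E] [Module ℂ E] [FiniteDimensional ℂ E] (φ : E ≃ₗ[ℂ] E) :
    ∃ c : ℂ, c ≠ 0 ∧ ∀ t : ℂ, LinearMap.det (LinearMap.id - t • (φ.symm : E →ₗ[ℂ] E)) =
      c * (φ : E →ₗ[ℂ] E).charpoly.eval t := by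
  refine ⟨LinearMap.det (φ.symm : E →ₗ[ℂ] E) * (-1) ^ finrank ℂ E, mul_ne_zero ?_ ?_, fun t => ?_⟩
  · exact (LinearEquiv.isUnit_det' φ.symm).ne_zero
  · exact pow_ne_zero _ (by norm_num)
  · have h1 : (LinearMap.id - t • (φ.symm : E →ₗ[ℂ] E)) =
        (φ.symm : E →ₗ[ℂ] E) * ((φ : E →ₗ[ℂ] E) - t • (1 : E →ₗ[ℂ] E)) := by
      ext e
      simp
    have h2 : LinearMap.det ((φ : E →ₗ[ℂ] E) - t • (1 : E →ₗ[ℂ] E)) =
        (-1) ^ finrank ℂ E * (φ : E →ₗ[ℂ] E).charpoly.eval t := by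
      rw [LinearMap.det_eq_sign_charpoly_coeff, LinearMap.charpoly_sub_smul, coeff_zero_eq_eval_zero,
        eval_comp]
      simp
    rw [h1, map_mul, h2, mul_assoc]

/-- The order of `s ↦ c p (Q ^ (- s))` at `s = j`. -/
theorem order_eval {p : ℂ[X]} (hp : p ≠ 0) {c : ℂ} (hc : c ≠ 0) {Q : ℕ} (hQ : 1 < Q) (j : ℤ) :
    meromorphicOrderAt (fun s : ℂ => c * p.eval ((Q : ℂ) ^ (-s))) (j : ℂ) =
      ((p.rootMultiplicity (((Q : ℂ) ^ j)⁻¹) : ℤ) : WithTop ℤ) := by
  have hQ0 : (Q : ℂ) ≠ 0 := by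
    have : Q ≠ 0 := by omega
    exact_mod_cast this
  have hlog : Complex.log (Q : ℂ) ≠ 0 := by
    rw [← Complex.natCast_log]
    have : Real.log Q ≠ 0 := (Real.log_pos (by exact_mod_cast hQ)).ne'
    exact_mod_cast this
  have hd : ∀ s : ℂ, HasDerivAt (fun s : ℂ => (Q : ℂ) ^ (-s))
      ((Q : ℂ) ^ (-s) * Complex.log Q * (-1)) s := fun s =>
    (hasDerivAt_neg s).const_cpow (Or.inl hQ0)
  have han : AnalyticAt ℂ (fun s : ℂ => (Q : ℂ) ^ (-s)) (j : ℂ) := by
    refine DifferentiableOn.analyticAt (s := Set.univ) (fun s _ =>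
      (hd s).differentiableAt.differentiableWithinAt) Filter.univ_mem
  have hder : deriv (fun s : ℂ => (Q : ℂ) ^ (-s)) (j : ℂ) ≠ 0 := by
    rw [(hd _).deriv]
    refine mul_ne_zero (mul_ne_zero ?_ hlog) (by norm_num)
    rw [Complex.cpow_def_of_ne_zero hQ0]
    exact Complex.exp_ne_zero _
  have h1 := meromorphicOrderAt_comp_of_deriv_ne_zero (f := fun t : ℂ => c * p.eval t) han hder
  have h2 : ((fun t : ℂ => c * p.eval t) ∘ fun s : ℂ => (Q : ℂ) ^ (-s)) =
      fun s : ℂ => c * p.eval ((Q : ℂ) ^ (-s)) := rfl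
  rw [h2] at h1
  rw [h1]
  have h3 : ((Q : ℂ) ^ (-(j : ℂ))) = ((Q : ℂ) ^ j)⁻¹ := by
    rw [Complex.cpow_neg, Complex.cpow_intCast]
  simp only [h3]
  set μ := ((Q : ℂ) ^ j)⁻¹
  obtain ⟨R, hR, hR2⟩ := exists_eq_pow_rootMultiplicity_mul_and_not_dvd p hp μ
  have hmer : MeromorphicAt (fun t : ℂ => c * p.eval t) μ := by
    refine AnalyticAt.meromorphicAt ?_
    exact analyticAt_const.mul (AnalyticOnNhd.eval_polynomial p μ (Set.mem_univ _))
  rw [meromorphicOrderAt_eq_int_iff hmer]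
  refine ⟨fun t => c * R.eval t, ?_, ?_, ?_⟩
  · exact analyticAt_const.mul (AnalyticOnNhd.eval_polynomial R μ (Set.mem_univ _))
  · refine mul_ne_zero hc fun h => hR2 ?_
    exact dvd_iff_isRoot.2 h
  · refine Filter.Eventually.of_forall fun t => ?_
    rw [zpow_natCast, smul_eq_mul]
    conv_lhs => rw [hR]
    rw [eval_mul, eval_pow, eval_sub, eval_X, eval_C]
    ring

/-- Two meromorphic functions which agree on a half-plane. -/
theorem order_unique {F G : ℂ → ℂ} (hF : MeromorphicOn F Set.univ) (hG : MeromorphicOn G Set.univ)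
    {σ : ℝ} (h : ∀ s : ℂ, σ < s.re → F s = G s) (z : ℂ) :
    meromorphicOrderAt F z = meromorphicOrderAt G z := by
  have hFG : MeromorphicOn (F - G) Set.univ := hF.sub hG
  have h1 : meromorphicOrderAt (F - G) ((σ + 1 : ℝ) : ℂ) = ⊤ := by
    rw [meromorphicOrderAt_eq_top_iff]
    have hopen : IsOpen {s : ℂ | σ < s.re} := isOpen_lt continuous_const Complex.continuous_re
    refine Filter.Eventually.filter_mono nhdsWithin_le_nhds ?_
    filter_upwards [hopen.mem_nhds (x := ((σ + 1 : ℝ) : ℂ)) (by simp)] with s hs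
    rw [Pi.sub_apply, h s hs, sub_self]
  have h2 : meromorphicOrderAt (F - G) z = ⊤ := by
    by_contra hne
    exact hFG.meromorphicOrderAt_ne_top_of_isPreconnected isPreconnected_univ (Set.mem_univ z)
      (Set.mem_univ _) hne h1
  rw [meromorphicOrderAt_eq_top_iff] at h2
  refine meromorphicOrderAt_congr ?_
  filter_upwards [h2] with s hs
  exact sub_eq_zero.1 hs

end Pool.Agent.Q124.ZO
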