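import Mathlib
import Pool.Agent.Q124.TB.Defs

/-!
# Zeta functions of schemes and the ranks of higher Chow groups: statements
-/

set_option autoImplicit false

open CategoryTheory AlgebraicGeometry

namespace Pool.Agent.Q124.ZO

open Polynomial Pool.Agent.H914 Pool.Agent.H914.VarClass Pool.Agent.H914.VarClass.Obj
  Pool.Agent.W492.BB Pool.Agent.Q124.Lay Pool.Agent.W495.FM Pool.Agent.Q124.TB

/-- The Euler product over the closed points of the scheme `X`. -/
noncomputable def eulerProduct (X : Scheme.{0}) (s : ℂ) : ℂ :=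
  ∏' x : {x : X // IsClosed ({x} : Set X)}, (1 - (Nat.card (X.residueField x.1) : ℂ) ^ (-s))⁻¹

/-- `F` is a meromorphic continuation of the zeta function of `X`. -/
def IsContinuation (X : Scheme.{0}) (F : ℂ → ℂ) : Prop :=
  MeromorphicOn F Set.univ ∧ ∃ σ : ℝ, ∀ s : ℂ, σ < s.re → F s = eulerProduct X s

/-- `f` is an automorphism, and `P t` is the determinant of `1 - t f ^ (-1)`. -/
def HasFactor {A : Type} [AddCommGroup A] [Module ℂ A] (f : A → A) (P : ℂ → ℂ) : Prop :=
  ∃ φ : A ≃ₗ[ℂ] A, φ = f ∧ ∀ t, P t = LinearMap.det (1 - t • (φ.symm : Module.End ℂ A))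

/-- `f'` is isomorphic to `a f`. -/
def IsTwist {A B : Type} [AddCommGroup A] [Module ℂ A] [AddCommGroup B] [Module ℂ B] (a : ℂ)
    (f : A → A) (f' : B → B) : Prop :=
  ∃ g : B ≃ₗ[ℂ] A, ∀ e, g (f' e) = a • f (g e)

/-- The alternating sum of the dimensions of the spaces `M m`, which are finite-dimensional and are
zero for large `m`, is `χ`. -/
def HasEulerChar (M : ℕ → Type) [∀ m, AddCommGroup (M m)] [∀ m, Module ℚ (M m)] (χ : ℤ) : Prop :=
  (∀ m, Module.Finite ℚ (M m)) ∧ ∃ N : ℕ, (∀ m, N ≤ m → Subsingleton (M m)) ∧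
    χ = ∑ m ∈ Finset.range N, (-1) ^ m * (Module.finrank ℚ (M m) : ℤ)

section

variable {V : Type} (S : Homology ℂ V) (sp : V → Scheme.{0})

/-- The trace formula of Grothendieck for the scheme `X` of dimension at most `d` over the field with
`Q` elements: `H_i (X, ℚ_ℓ)` is the dual of the cohomology with compact supports in degree `i`, which
vanishes for `i < 0` and `i > 2 d`, and Frobenius operates on it by the inverse of the transpose of
its operation on the cohomology, and on its twist `H_i (X, ℚ_ℓ(j))` by `Q ^ j` times this operation.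
So `P i t` is the characteristic polynomial of Frobenius on the cohomology with compact supports. -/
def HasTraceFormula (Q : ℕ) (X : V) : Prop :=
  ∃ (d : ℕ) (P : ℤ → ℂ → ℂ), (∀ i : ℤ, HasFactor (S.frob X i 0) (P i)) ∧
    (∀ i j : ℤ, IsTwist ((Q : ℂ) ^ j) (S.frob X i 0) (S.frob X i j)) ∧
    (∀ i j : ℤ, i < 0 ∨ 2 * d < i → Subsingleton (S.E X i j)) ∧
    ∃ σ : ℝ, ∀ s : ℂ, σ < s.re → eulerProduct (sp X) s =
      ∏ i ∈ Finset.range (2 * d + 1), P i ((Q : ℂ) ^ (-s)) ^ ((-1 : ℤ) ^ (i + 1))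

/-- The conjectures of Bloch and Soulé for `X`: the zeta function has a meromorphic continuation, and
for all integers `j` the groups `CH_j (X, m)_ℚ` are finite-dimensional, vanish for large `m`, and the
order of the zeta function at `s = j` is minus the alternating sum `χ` of their dimensions. -/
def ZetaOrders (X : V) : Prop :=
  (∃ F, IsContinuation (sp X) F) ∧ ∀ j : ℤ, ∃ χ : ℤ,
    HasEulerChar (fun m : ℕ => S.M X (2 * j + m) j) χ ∧
    ∀ F, IsContinuation (sp X) F → meromorphicOrderAt F (j : ℂ) = ((-χ : ℤ) : WithTop ℤ)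

end

/-- The products `A × Z` which generate the class of schemes of the theorem: these are the products
`IsProduct`, and the products `A × Z` with a narrow variety `Z` (this is `IsNarrowProduct`): `A`, `B`,
`Z` are as in `IsTripleFor`, with `n = 1`, the variety `Z` has the properties `IsNarrow`, `HasInverse`
and `TB (Z)`, and `TB (B × Z)` holds for the twist which belongs to divisors. -/
def IsGenerator {k : Type} [Field k] {𝒱 : VarClass k} {C : TheoryData.{0, 0, 0} 𝒱 ℚ}
    (H : WeilTheoryData.{0, 0, 0} C ℂ) (Fr : ∀ X : 𝒱.Obj, X ⟶ X) {V : Type} (S : Homology ℂ V)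
    (sch : 𝒱.Obj → V) (δ δ₂ : ℝ) (q s : ℕ) {I : Type} (f : I → ℤ[X]) (X : V) : Prop :=
  IsProduct H Fr S sch δ q s f X ∨ ∃ A B Z : 𝒱.Obj, 1 < 3 * δ ∧
    IsTripleFor H (Fr A) (Fr B) (Fr Z) 1 q s f ∧ IsNarrow H (Fr Z) (q ^ s) δ δ₂ ∧
    HasInverse H Z ∧ (∀ j, TBAt S (sch Z) j) ∧ TBAt S (sch (B.prod Z)) (B.dim + Z.dim - 1) ∧
    X = sch (A.prod Z)

/-- `BlochSouleTheorem δ δ₂ q f`: for all `𝒱`, `C`, `H`, `T`, `S` as in `IsRealization`, over fields
with `q ^ s` elements, the conjectures of Bloch and Soulé are true for all schemes `X` of the class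
generated by the schemes `IsGenerator`. -/
def BlochSouleTheorem (δ δ₂ : ℝ) (q : ℕ) {I : Type} (f : I → ℤ[X]) : Prop :=
  ∀ (k : Type) [Field k] (𝒱 : VarClass k) (C : TheoryData.{0, 0, 0} 𝒱 ℚ) [IsChow C]
    (H : WeilTheoryData.{0, 0, 0} C ℂ) [IsWeil H] (s : ℕ) (Fr : ∀ X : 𝒱.Obj, X ⟶ X)
    (T : ℕ → Theory C) (V : Type) (S : Homology ℂ V) (sch : 𝒱.Obj → V), 0 < s →
    IsRealization H Fr (q ^ s) T S sch →
    ∀ sp : V → Scheme.{0}, (∀ Y, sp (sch Y) = Y.V.X) → (∀ X, HasTraceFormula S sp (q ^ s) X) →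
    ∀ X : V, Generated S (IsGenerator H Fr S sch δ δ₂ q s f) X → ZetaOrders S sp X

end Pool.Agent.Q124.ZO
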